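import Mathlib

/-!
# Standard Gaussian vectors: tails, intervals and boxes
-/

set_option autoImplicit false

namespace Pool.Agent.MP_ec946a.RND

open MeasureTheory ProbabilityTheory

/-- the standard normal law -/
noncomputable abbrev ga : Measure ℝ := gaussianReal 0 1

lemma ga_tail {t : ℝ} (ht : 0 ≤ t) : ga.real (Set.Ici t) ≤ Real.exp (-(t ^ 2 / 2)) := by
  have h := measure_ge_le_exp_mul_mgf (μ := ga) (X := id) t ht
    (by simpa using integrable_exp_mul_gaussianReal (μ := 0) (v := 1) t)
  have h2 : mgf id ga t = Real.exp (t ^ 2 / 2) := by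
    have := congrFun (mgf_id_gaussianReal (μ := 0) (v := 1)) t
    simpa using this
  rw [h2, ← Real.exp_add] at h
  have e : -t * t + t ^ 2 / 2 = -(t ^ 2 / 2) := by ring
  rw [e] at h
  exact h

lemma ga_interval {a d : ℝ} (ha : 0 ≤ a) (hd : 0 ≤ d) :
    d * (3⁻¹ * Real.exp (-((a + d) ^ 2 / 2))) ≤ ga.real (Set.Icc a (a + d)) := by
  have h1 : ∀ x ∈ Set.Icc a (a + d),
      3⁻¹ * Real.exp (-((a + d) ^ 2 / 2)) ≤ gaussianPDFReal 0 1 x := by
    intro x hx
    rw [gaussianPDFReal_def]
    simp only [NNReal.coe_one, mul_one, sub_zero]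
    have hpi : (3 : ℝ)⁻¹ ≤ (√(2 * Real.pi))⁻¹ := by
      apply inv_anti₀ (by positivity)
      rw [Real.sqrt_le_left (by norm_num)]
      nlinarith [Real.pi_lt_d2]
    have hx2 : Real.exp (-((a + d) ^ 2 / 2)) ≤ Real.exp (-x ^ 2 / 2) := by
      apply Real.exp_le_exp.mpr
      have h3 : x ^ 2 ≤ (a + d) ^ 2 := by
        apply pow_le_pow_left₀ (ha.trans hx.1) hx.2
      linarith
    exact mul_le_mul hpi hx2 (Real.exp_pos _).le (by positivity)
  have h2 : ga.real (Set.Icc a (a + d)) = ∫ x in Set.Icc a (a + d), gaussianPDFReal 0 1 x := by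
    rw [measureReal_def, gaussianReal_apply_eq_integral 0 one_ne_zero, ENNReal.toReal_ofReal]
    exact integral_nonneg fun x => gaussianPDFReal_nonneg _ _ _
  rw [h2]
  have h3 : ∫ _ in Set.Icc a (a + d), (3⁻¹ * Real.exp (-((a + d) ^ 2 / 2)) : ℝ)
      ≤ ∫ x in Set.Icc a (a + d), gaussianPDFReal 0 1 x := by
    apply setIntegral_mono_on
    · exact integrableOn_const (by simp)
    · exact (integrable_gaussianPDFReal 0 1).integrableOn
    · exact measurableSet_Icc
    · exact h1
  refine le_trans (le_of_eq ?_) h3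
  rw [setIntegral_const, smul_eq_mul, measureReal_def, Real.volume_Icc]
  rw [ENNReal.toReal_ofReal (by linarith)]
  ring

variable {E : Type*} [NormedAddCommGroup E] [InnerProductSpace ℝ E] [FiniteDimensional ℝ E]
  [MeasurableSpace E] [BorelSpace E]

lemma map_inner {e : E} (he : ‖e‖ = 1) :
    (stdGaussian E).map (fun g => inner ℝ e g) = ga := by
  have h := IsGaussian.map_eq_gaussianReal (μ := stdGaussian E) (innerSL ℝ e)
  have h1 : (fun g => inner ℝ e g) = ⇑(innerSL ℝ e) := by
    funext g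
    rfl
  rw [h1, h, integral_strongDual_stdGaussian, variance_dual_stdGaussian, innerSL_apply_norm, he]
  simp

lemma cov_inner (e e' : E) :
    cov[fun g => inner ℝ e g, fun g => inner ℝ e' g; stdGaussian E] = inner ℝ e e' := by
  have h := covarianceBilin_stdGaussian (E := E)
  have h2 : covarianceBilin (stdGaussian E) e e' = innerSL ℝ e e' := by rw [h]
  rw [covarianceBilin_apply_eq_cov IsGaussian.memLp_two_id] at h2
  exact h2

lemma indep_inner {ι : Type*} [Fintype ι] {e : ι → E} (he : Orthonormal ℝ e) :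
    iIndepFun (fun i g => inner ℝ (e i) g) (stdGaussian E) := by
  apply HasGaussianLaw.iIndepFun_of_covariance_eq_zero
  · exact (IsGaussian.hasGaussianLaw_id (μ := stdGaussian E)).map
      (ContinuousLinearMap.pi fun i => innerSL ℝ (e i))
  · intro i j hij
    rw [cov_inner]
    exact he.2 hij

lemma box {ι : Type*} [Fintype ι] {e : ι → E} (he : Orthonormal ℝ e) {s : ι → Set ℝ}
    (hs : ∀ i, MeasurableSet (s i)) :
    (stdGaussian E).real {g | ∀ i, inner ℝ (e i) g ∈ s i} = ∏ i, ga.real (s i) := by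
  have h := (indep_inner he).measure_inter_preimage_eq_mul Finset.univ (sets := s) fun i _ => hs i
  have h1 : {g | ∀ i, inner ℝ (e i) g ∈ s i}
      = ⋂ i ∈ (Finset.univ : Finset ι), (fun g => inner ℝ (e i) g) ⁻¹' s i := by
    ext g
    simp
  rw [measureReal_def, h1, h, ENNReal.toReal_prod]
  refine Finset.prod_congr rfl fun i _ => ?_
  rw [← map_inner (he.1 i), measureReal_def, Measure.map_apply (by fun_prop) (hs i)]

end Pool.Agent.MP_ec946a.RND
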