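import Mathlib
import Pool.Agent.Lib.MP_ec946a_rnd.Gauss

/-!
# Rounding satisfiable 2-to-1 games: the thresholds

`E` is the space of the vectors, `stdGaussian E` the law of a standard Gaussian vector `g`.
-/

set_option autoImplicit false

namespace Pool.Agent.MP_ec946a.RND

open MeasureTheory ProbabilityTheory Finset

variable {E : Type*} [NormedAddCommGroup E] [InnerProductSpace ℝ E]

/-- the threshold of the vector `z` -/
noncomputable def tt (z : E) : ℝ := √(2 * Real.log (1 / ‖z‖ ^ 2))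

/-- the event that the label with the vector `z` is a candidate -/
def In (z : E) : Set E := {g | z ≠ 0 ∧ tt z * ‖z‖ ≤ inner ℝ z g}

/-- the exponent -/
noncomputable def kap : ℝ := 3 - 2 * √2

/-- the fractional label given to the label `a` -/
noncomputable def lab {q : ℕ} (X : Fin q → E) (g : E) (a : Fin q) : ℝ :=
  (In (X a)).indicator (fun _ => (1 : ℝ)) g / ∑ a', (In (X a')).indicator (fun _ => (1 : ℝ)) g

/-- the constant -/
noncomputable def cF : ℝ := 1 / 100000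

/-- F1 (33) -/
def F1 (E : Type*) [NormedAddCommGroup E] [InnerProductSpace ℝ E] [FiniteDimensional ℝ E]
    [MeasurableSpace E] [BorelSpace E] : Prop :=
  ∀ z : E, ‖z‖ ≤ 1 → (stdGaussian E).real (In z) ≤ ‖z‖ ^ 2

/-- F3 (33) -/
def F3 (E : Type*) [NormedAddCommGroup E] [InnerProductSpace ℝ E] [FiniteDimensional ℝ E]
    [MeasurableSpace E] [BorelSpace E] : Prop :=
  ∀ x x' : E, x ≠ 0 → inner ℝ x x' = (0 : ℝ) → ‖x'‖ ≤ ‖x‖ → ‖x + x'‖ ≤ 1 →
    1 / 200 * (‖x‖ ^ 2) ^ (1 + kap) / (1 + tt x) ^ 2 ≤ (stdGaussian E).real (In x ∩ In (x + x'))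

/-- F2 (27) -/
def F2 (E : Type*) [NormedAddCommGroup E] [InnerProductSpace ℝ E] [FiniteDimensional ℝ E]
    [MeasurableSpace E] [BorelSpace E] : Prop :=
  ∀ x x' z : E, x ≠ 0 → inner ℝ x x' = (0 : ℝ) → inner ℝ x z = (0 : ℝ) → inner ℝ x' z = (0 : ℝ) →
    (stdGaussian E).real (In x ∩ In (x + x') ∩ In z)
      = (stdGaussian E).real (In x ∩ In (x + x')) * (stdGaussian E).real (In z)

/-- F4 (27) -/
def F4 (E : Type*) [NormedAddCommGroup E] [InnerProductSpace ℝ E] [FiniteDimensional ℝ E]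
    [MeasurableSpace E] [BorelSpace E] : Prop :=
  ∀ (q : ℕ) (X Y : Fin q → E) (π : Fin q → Fin q), 0 < q →
    (∀ a a', a ≠ a' → inner ℝ (X a) (X a') = (0 : ℝ)) → ∑ a, ‖X a‖ ^ 2 = 1 →
    (∀ b, (univ.filter fun a => π a = b).card ≤ 2) →
    (∀ b, Y b = ∑ a ∈ univ.filter (fun a => π a = b), X a) →
    cF / ((q : ℝ) ^ kap * (1 + Real.log q))
      ≤ ∫ g, ∑ a, lab X g a * lab Y g (π a) ∂(stdGaussian E)

end Pool.Agent.MP_ec946a.RND
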