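import Mathlib
import Pool.Agent.Lib.MP_ec946a_rnd.Defs

/-! Rows F1, F2, F3: the Gaussian estimates for the rounding of the basic semidefinite relaxation of
2-to-1 games (helper33). -/

set_option autoImplicit false
open MeasureTheory ProbabilityTheory Real

namespace Pool.Agent.MP_ec946a.RND

namespace Biv

/-- The constant of the lower bound of the Gaussian tail. -/
noncomputable def cg : ℝ := exp (-(3 / 2)) / √(2 * π)

lemma cg_pos : 0 < cg := by unfold cg; positivity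

lemma cg_le_one : cg ≤ 1 := by
  unfold cg
  have h1 : (1 : ℝ) ≤ √(2 * π) := by
    rw [Real.one_le_sqrt]
    have := Real.pi_gt_three
    linarith
  rw [div_le_one (by positivity)]
  exact (Real.exp_le_one_iff.2 (by norm_num)).trans h1

lemma tail_le (t : ℝ) (ht : 0 ≤ t) : (gaussianReal 0 1).real (Set.Ici t) ≤ exp (-(t ^ 2 / 2)) := by
  have h := measure_ge_le_exp_mul_mgf (μ := gaussianReal 0 1) (X := id) t ht
    (by simpa using integrable_exp_mul_gaussianReal (μ := 0) (v := 1) t)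
  rw [mgf_id_gaussianReal] at h
  have h2 : (gaussianReal 0 1).real {ω | t ≤ id ω} = (gaussianReal 0 1).real (Set.Ici t) := rfl
  rw [h2] at h
  refine h.trans (le_of_eq ?_)
  rw [← exp_add]
  congr 1
  simp
  ring

lemma le_tail (s : ℝ) (hs : 0 ≤ s) :
    cg * exp (-(s ^ 2 / 2)) / (1 + s) ≤ (gaussianReal 0 1).real (Set.Ici s) := by
  have h1 : (0 : ℝ) < 1 + s := by linarith
  set b : ℝ := s + 1 / (1 + s) with hb
  have hsb : s ≤ b := by rw [hb]; linarith [one_div_pos.2 h1]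
  have h2 : (gaussianReal 0 1).real (Set.Icc s b) ≤ (gaussianReal 0 1).real (Set.Ici s) :=
    measureReal_mono Set.Icc_subset_Ici_self
  refine le_trans ?_ h2
  have h3 : (gaussianReal 0 1).real (Set.Icc s b) = ∫ x in Set.Icc s b, gaussianPDFReal 0 1 x := by
    rw [measureReal_def, gaussianReal_apply_eq_integral 0 one_ne_zero, ENNReal.toReal_ofReal]
    exact integral_nonneg fun x => gaussianPDFReal_nonneg 0 1 x
  rw [h3]
  have h4 : ∫ x in Set.Icc s b, (cg * exp (-(s ^ 2 / 2))) = cg * exp (-(s ^ 2 / 2)) / (1 + s) := by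
    rw [setIntegral_const, measureReal_def, Real.volume_Icc, ENNReal.toReal_ofReal (by linarith),
      hb, smul_eq_mul]
    field_simp
    ring
  rw [← h4]
  refine setIntegral_mono_on ?_ ?_ measurableSet_Icc fun x hx => ?_
  · exact integrableOn_const (by simp)
  · exact (integrable_gaussianPDFReal 0 1).integrableOn
  · rw [gaussianPDFReal]
    have hx2 : x ^ 2 ≤ s ^ 2 + 3 := by
      have h5 : x ≤ s + 1 / (1 + s) := hx.2
      have h6 : 0 ≤ x := hs.trans hx.1
      have h7 : x ^ 2 ≤ (s + 1 / (1 + s)) ^ 2 := by gcongr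
      have h8 : (s + 1 / (1 + s)) ^ 2 ≤ s ^ 2 + 3 := by
        have h9 : 1 / (1 + s) ≤ 1 := by rw [div_le_one h1]; linarith
        have h10 : s * (1 / (1 + s)) ≤ 1 := by
          rw [mul_one_div, div_le_one h1]; linarith
        have h11 : 0 ≤ 1 / (1 + s) := by positivity
        nlinarith
      linarith
    have e1 : exp (-(3 / 2)) * exp (-(s ^ 2 / 2)) ≤ exp (-(x - 0) ^ 2 / (2 * ((1 : NNReal) : ℝ))) := by
      rw [← exp_add]
      refine exp_le_exp.2 ?_
      simp only [sub_zero, NNReal.coe_one, mul_one]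
      linarith
    have e2 : cg * exp (-(s ^ 2 / 2)) =
        (√(2 * π * ((1 : NNReal) : ℝ)))⁻¹ * (exp (-(3 / 2)) * exp (-(s ^ 2 / 2))) := by
      unfold cg
      simp only [NNReal.coe_one, mul_one]
      ring
    rw [e2]
    exact mul_le_mul_of_nonneg_left e1 (by positivity)

/-! ### Inner products with a standard Gaussian vector -/

section vec

variable {E : Type*} [NormedAddCommGroup E] [InnerProductSpace ℝ E] [FiniteDimensional ℝ E]
  [MeasurableSpace E] [BorelSpace E]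

lemma map_inn (z : E) (hz : ‖z‖ = 1) :
    (stdGaussian E).map (fun g => inner ℝ z g) = gaussianReal 0 1 := by
  have h : HasGaussianLaw (fun g => innerSL ℝ z g) (stdGaussian E) :=
    IsGaussian.hasGaussianLaw_id.map_fun (innerSL ℝ z)
  have h1 := h.map_eq_gaussianReal
  have h2 : ∫ g, (innerSL ℝ z) g ∂(stdGaussian E) = 0 := integral_strongDual_stdGaussian (innerSL ℝ z)
  have h3 : Var[fun g => (innerSL ℝ z) g; stdGaussian E] = 1 := by
    have := variance_dual_stdGaussian (innerSL ℝ z)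
    rw [innerSL_apply_norm, hz] at this
    simpa using this
  rw [h2, h3] at h1
  simpa using h1

lemma cov_inn (z w : E) :
    cov[fun g => inner ℝ z g, fun g => inner ℝ w g; stdGaussian E] = inner ℝ z w := by
  rw [← covarianceBilin_apply_eq_cov, covarianceBilin_stdGaussian]
  · rfl
  · exact IsGaussian.memLp_two_id

lemma indep3 (z : Fin 3 → E) (hz : ∀ i j, i ≠ j → inner ℝ (z i) (z j) = 0) :
    iIndepFun (fun i g => inner ℝ (z i) g) (stdGaussian E) := by
  have h : HasGaussianLaw (fun g => (fun i => inner ℝ (z i) g)) (stdGaussian E) :=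
    IsGaussian.hasGaussianLaw_id.map_fun
      (ContinuousLinearMap.pi fun i : Fin 3 => innerSL ℝ (z i))
  refine h.iIndepFun_of_covariance_eq_zero fun i j hij => ?_
  rw [cov_inn]
  exact hz i j hij

lemma meas_inner (z : E) : Measurable fun g => (inner ℝ z g : ℝ) := by
  fun_prop

lemma indep_pair {x x' z : E} (h1 : inner ℝ x x' = 0)
    (h2 : inner ℝ x z = 0) (h3 : inner ℝ x' z = 0) :
    IndepFun (fun g => ((inner ℝ x g : ℝ), (inner ℝ x' g : ℝ))) (fun g => (inner ℝ z g : ℝ))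
      (stdGaussian E) := by
  have h := indep3 (E := E) ![x, x', z] (by
    intro i j hij
    fin_cases i <;> fin_cases j <;>
      simp_all [real_inner_comm])
  have := h.indepFun_prodMk (fun i => meas_inner _) 0 1 2 (by decide) (by decide)
  simpa using this

lemma indep_two {x x' : E} (h1 : inner ℝ x x' = 0) :
    IndepFun (fun g => (inner ℝ x g : ℝ)) (fun g => (inner ℝ x' g : ℝ)) (stdGaussian E) := by
  have h := indep3 (E := E) ![x, x', 0] (by
    intro i j hij
    fin_cases i <;> fin_cases j <;>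
      simp_all [real_inner_comm])
  simpa using h.indepFun (i := 0) (j := 1) (by decide)

end vec

/-! ### Thresholds -/

section thr

variable {E : Type*} [NormedAddCommGroup E] [InnerProductSpace ℝ E] [FiniteDimensional ℝ E]
  [MeasurableSpace E] [BorelSpace E]

lemma tt_nonneg (z : E) : 0 ≤ tt z := Real.sqrt_nonneg _

lemma exp_tt {z : E} (hz : z ≠ 0) (h1 : ‖z‖ ≤ 1) :
    exp (-(tt z ^ 2 / 2)) = ‖z‖ ^ 2 := by
  have h0 : 0 < ‖z‖ := norm_pos_iff.2 hz
  have h2 : 0 ≤ log (1 / ‖z‖ ^ 2) := by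
    refine log_nonneg ?_
    rw [le_div_iff₀ (by positivity)]
    nlinarith
  have h3 : -(tt z ^ 2 / 2) = log (‖z‖ ^ 2) := by
    unfold tt
    rw [Real.sq_sqrt (by positivity), one_div, log_inv]
    ring
  rw [h3, exp_log (by positivity)]

lemma tt_le {z w : E} (hz : z ≠ 0) (h : ‖z‖ ≤ ‖w‖) : tt w ≤ tt z := by
  have h0 : 0 < ‖z‖ := norm_pos_iff.2 hz
  have h1 : 0 < ‖w‖ := h0.trans_le h
  have h2 : 0 < 1 / ‖w‖ ^ 2 := by positivity
  unfold tt
  gcongr

lemma meas_half (z : E) (s : ℝ) :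
    MeasurableSet {g : E | s ≤ inner ℝ z g} :=
  measurableSet_le measurable_const (meas_inner z)

lemma meas_In (z : E) : MeasurableSet (In z) := by
  by_cases h : z = 0
  · simp [In, h]
  · have : In z = {g : E | tt z * ‖z‖ ≤ inner ℝ z g} := by
      ext g; simp [In, h]
    rw [this]
    exact meas_half _ _

lemma real_half {z : E} (hz : z ≠ 0) (s : ℝ) :
    (stdGaussian E).real {g | s * ‖z‖ ≤ inner ℝ z g} = (gaussianReal 0 1).real (Set.Ici s) := by
  have h0 : 0 < ‖z‖ := norm_pos_iff.2 hz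
  have hu : ‖(‖z‖⁻¹ : ℝ) • z‖ = 1 := norm_smul_inv_norm hz
  rw [← map_inn (E := E) _ hu, map_measureReal_apply (meas_inner _) measurableSet_Ici]
  congr 1
  ext g
  simp only [Set.mem_ofPred_eq, Set.mem_preimage, Set.mem_Ici, inner_smul_left]
  simp only [conj_trivial]
  rw [inv_mul_eq_div, le_div_iff₀ h0]

lemma In_le (z : E) (h1 : ‖z‖ ≤ 1) : (stdGaussian E).real (In z) ≤ ‖z‖ ^ 2 := by
  by_cases hz : z = 0
  · simp [In, hz]
  · have : In z = {g : E | tt z * ‖z‖ ≤ inner ℝ z g} := by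
      ext g; simp [In, hz]
    rw [this, real_half hz, ← exp_tt hz h1]
    exact tail_le _ (tt_nonneg z)

lemma kap_aux {a b : ℝ} (hb : 0 ≤ b) (hab : b ≤ a) : √(a ^ 2 + b ^ 2) ≤ a + (√2 - 1) * b := by
  have h2 : (1 : ℝ) ≤ √2 := by rw [Real.one_le_sqrt]; norm_num
  have h3 : √2 ^ 2 = 2 := Real.sq_sqrt (by norm_num)
  rw [Real.sqrt_le_left (by nlinarith [mul_nonneg (sub_nonneg.2 h2) hb])]
  nlinarith [mul_nonneg (mul_nonneg (sub_nonneg.2 h2) hb) (sub_nonneg.2 hab)]

/-- The bivariate bound. -/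
theorem biv {x x' : E} (h : inner ℝ x x' = (0 : ℝ)) (hx : x ≠ 0)
    (hle : ‖x'‖ ≤ ‖x‖) (h1 : ‖x + x'‖ ≤ 1) :
    cg ^ 2 * (‖x‖ ^ 2) ^ (4 - 2 * √2) / (1 + tt x) ^ 2 ≤ (stdGaussian E).real (In x ∩ In (x + x')) := by
  have h0 : 0 < ‖x‖ := norm_pos_iff.2 hx
  have ht := tt_nonneg x
  have h22 : √2 ^ 2 = 2 := Real.sq_sqrt (by norm_num)
  have h21 : (1 : ℝ) ≤ √2 := by rw [Real.one_le_sqrt]; norm_num
  have h23 : √2 ≤ 3 / 2 := by rw [Real.sqrt_le_left (by norm_num)]; norm_num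
  have hsq : ‖x + x'‖ ^ 2 = ‖x‖ ^ 2 + ‖x'‖ ^ 2 := by
    rw [norm_add_sq_real, h]; ring
  have hxy : ‖x‖ ≤ ‖x + x'‖ := by
    refine le_of_sq_le_sq ?_ (norm_nonneg _)
    rw [hsq]; nlinarith [sq_nonneg ‖x'‖]
  have hx1 : ‖x‖ ≤ 1 := hxy.trans h1
  have hpos : (0 : ℝ) < ‖x‖ ^ 2 := by positivity
  have hcg := cg_pos
  have hcg1 := cg_le_one
  have hInx : In x = {g : E | tt x * ‖x‖ ≤ inner ℝ x g} := by
    ext g; simp [In, hx]
  by_cases hx' : x' = 0
  · rw [hx', add_zero, Set.inter_self, hInx, real_half hx]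
    refine le_trans ?_ (le_tail _ ht)
    rw [exp_tt hx hx1]
    have e1 : (‖x‖ ^ 2) ^ (4 - 2 * √2) ≤ ‖x‖ ^ 2 := by
      conv_rhs => rw [← Real.rpow_one (‖x‖ ^ 2)]
      exact Real.rpow_le_rpow_of_exponent_ge hpos (by nlinarith) (by linarith)
    have e2 : cg ^ 2 * (‖x‖ ^ 2) ^ (4 - 2 * √2) ≤ cg * ‖x‖ ^ 2 := by
      calc cg ^ 2 * (‖x‖ ^ 2) ^ (4 - 2 * √2) ≤ cg ^ 2 * ‖x‖ ^ 2 := by gcongr
        _ ≤ cg * ‖x‖ ^ 2 := by
          refine mul_le_mul_of_nonneg_right ?_ hpos.le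
          nlinarith
    have e3 : (1 + tt x) ≤ (1 + tt x) ^ 2 := by nlinarith
    exact div_le_div₀ (by positivity) e2 (by positivity) e3
  · have h0' : 0 < ‖x'‖ := norm_pos_iff.2 hx'
    set A1 : Set (E) := {g | tt x * ‖x‖ ≤ inner ℝ x g} with hA1
    set A2 : Set (E) := {g | ((√2 - 1) * tt x) * ‖x'‖ ≤ inner ℝ x' g}
      with hA2
    have hsub : A1 ∩ A2 ⊆ In x ∩ In (x + x') := by
      rintro g ⟨hg1, hg2⟩
      refine ⟨?_, ?_, ?_⟩
      · rw [hInx]; exact hg1
      · intro h5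
        have : ‖x + x'‖ = 0 := by rw [h5, norm_zero]
        linarith
      · rw [inner_add_left]
        have h5 : tt (x + x') ≤ tt x := tt_le hx hxy
        have h6 : ‖x + x'‖ ≤ ‖x‖ + (√2 - 1) * ‖x'‖ := by
          have h7 := kap_aux (norm_nonneg x') hle
          rw [← hsq, Real.sqrt_sq (norm_nonneg _)] at h7
          exact h7
        have h8 : tt (x + x') * ‖x + x'‖ ≤ tt x * (‖x‖ + (√2 - 1) * ‖x'‖) :=
          mul_le_mul h5 h6 (norm_nonneg _) ht
        have h9 : tt x * ‖x‖ ≤ inner ℝ x g := hg1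
        have h10 : ((√2 - 1) * tt x) * ‖x'‖ ≤ inner ℝ x' g := hg2
        nlinarith
    refine le_trans ?_ (measureReal_mono hsub)
    have hind := (indep_two (E := E) h).measure_inter_preimage_eq_mul
      (Set.Ici (tt x * ‖x‖)) (Set.Ici (((√2 - 1) * tt x) * ‖x'‖)) measurableSet_Ici
      measurableSet_Ici
    have hmul : (stdGaussian E).real (A1 ∩ A2) = (stdGaussian E).real A1 * (stdGaussian E).real A2 := by
      simp only [measureReal_def]
      rw [← ENNReal.toReal_mul]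
      exact congrArg ENNReal.toReal hind
    rw [hmul, hA1, hA2, real_half hx, real_half hx']
    have hs : 0 ≤ (√2 - 1) * tt x := mul_nonneg (by linarith) ht
    have k1 := le_tail _ ht
    have k2 := le_tail _ hs
    rw [exp_tt hx hx1] at k1
    have k3 : (‖x‖ ^ 2) ^ (3 - 2 * √2) = exp (-(((√2 - 1) * tt x) ^ 2 / 2)) := by
      rw [← exp_tt hx hx1, ← Real.exp_mul]
      congr 1
      rw [mul_pow]
      have : (√2 - 1) ^ 2 = 3 - 2 * √2 := by nlinarith
      rw [this]; ring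
    have k4 : (‖x‖ ^ 2) ^ (4 - 2 * √2) = ‖x‖ ^ 2 * (‖x‖ ^ 2) ^ (3 - 2 * √2) := by
      rw [show 4 - 2 * √2 = 1 + (3 - 2 * √2) by ring, Real.rpow_add hpos, Real.rpow_one]
    rw [← k3] at k2
    have k5 : cg * (‖x‖ ^ 2) ^ (3 - 2 * √2) / (1 + tt x) ≤
        (gaussianReal 0 1).real (Set.Ici ((√2 - 1) * tt x)) := by
      refine le_trans ?_ k2
      refine div_le_div_of_nonneg_left (by positivity) (by linarith) ?_
      nlinarith
    have k6 : cg ^ 2 * (‖x‖ ^ 2) ^ (4 - 2 * √2) / (1 + tt x) ^ 2 =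
        (cg * ‖x‖ ^ 2 / (1 + tt x)) * (cg * (‖x‖ ^ 2) ^ (3 - 2 * √2) / (1 + tt x)) := by
      rw [k4]; field_simp
    rw [k6]
    exact mul_le_mul k1 k5 (by positivity) measureReal_nonneg

/-- Independence of the events of orthogonal vectors. -/
theorem In_inter_eq {x x' z : E} (hx0 : x ≠ 0) (hy0 : x + x' ≠ 0) (hz0 : z ≠ 0)
    (h1 : inner ℝ x x' = (0 : ℝ))
    (h2 : inner ℝ x z = (0 : ℝ)) (h3 : inner ℝ x' z = (0 : ℝ)) :
    (stdGaussian E).real (In x ∩ In (x + x') ∩ In z) =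
      (stdGaussian E).real (In x ∩ In (x + x')) * (stdGaussian E).real (In z) := by
  have hind := (indep_pair (E := E) h1 h2 h3).measure_inter_preimage_eq_mul
    {p : ℝ × ℝ | tt x * ‖x‖ ≤ p.1 ∧ tt (x + x') * ‖x + x'‖ ≤ p.1 + p.2}
    (Set.Ici (tt z * ‖z‖))
    ((measurableSet_le measurable_const measurable_fst).inter
      (measurableSet_le measurable_const (measurable_fst.add measurable_snd))) measurableSet_Ici
  have e1 : In x ∩ In (x + x') = (fun g : E =>
      ((inner ℝ x g : ℝ), (inner ℝ x' g : ℝ))) ⁻¹'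
        {p : ℝ × ℝ | tt x * ‖x‖ ≤ p.1 ∧ tt (x + x') * ‖x + x'‖ ≤ p.1 + p.2} := by
    ext g
    simp [In, hx0, hy0, inner_add_left]
  have e2 : In z = (fun g : E => (inner ℝ z g : ℝ)) ⁻¹'
      (Set.Ici (tt z * ‖z‖)) := by
    ext g
    simp [In, hz0]
  simp only [measureReal_def]
  rw [← ENNReal.toReal_mul, e1, e2]
  exact congrArg ENNReal.toReal hind

end thr

end Biv

open Biv

variable (E : Type*) [NormedAddCommGroup E] [InnerProductSpace ℝ E] [FiniteDimensional ℝ E]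
  [MeasurableSpace E] [BorelSpace E]

theorem f1 : F1 E := fun z hz => In_le z hz

theorem f2 : F2 E := by
  intro x x' z hx0 h1 h2 h3
  by_cases hz0 : z = 0
  · have : In z = ∅ := by ext g; simp [In, hz0]
    rw [this, Set.inter_empty]
    simp
  by_cases hy0 : x + x' = 0
  · have : In (x + x') = ∅ := by ext g; simp [In, hy0]
    rw [this, Set.inter_empty, Set.empty_inter]
    simp
  exact In_inter_eq hx0 hy0 hz0 h1 h2 h3

theorem f3 : F3 E := by
  intro x x' hx h hle h1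
  have h0 := biv h hx hle h1
  refine le_trans ?_ h0
  have e : (1 : ℝ) + kap = 4 - 2 * √2 := by unfold kap; ring
  rw [e]
  have hc : (1 : ℝ) / 200 ≤ cg ^ 2 := by
    unfold cg
    rw [div_pow, ← Real.exp_nat_mul, Real.sq_sqrt (by positivity), div_le_div_iff₀ (by norm_num)
      (by positivity)]
    have h4 : exp (((2 : ℕ) : ℝ) * -(3 / 2)) = (exp 1 ^ 3)⁻¹ := by
      rw [← Real.exp_nat_mul, ← Real.exp_neg]
      congr 1
      norm_num
    rw [h4]
    have h5 : exp 1 < 2.7182818286 := Real.exp_one_lt_d9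
    have h6 : π < 3.15 := Real.pi_lt_d2
    have h7 : exp 1 ^ 3 ≤ 2.72 ^ 3 := by
      refine pow_le_pow_left₀ (Real.exp_pos 1).le (by linarith) 3
    have h8 : (0 : ℝ) < exp 1 ^ 3 := by positivity
    rw [inv_mul_eq_div, le_div_iff₀ h8]
    have h9 : 0 < π := Real.pi_pos
    nlinarith
  gcongr

end Pool.Agent.MP_ec946a.RND
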