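import Mathlib
import Pool.Agent.Lib.MP_ec946a_rnd.Defs
import Pool.Agent.Lib.MP_ec946a_rnd.Biv

/-!
# Rounding satisfiable 2-to-1 games: one edge
-/

set_option autoImplicit false

namespace Pool.Agent.MP_ec946a.RND

open MeasureTheory ProbabilityTheory Finset

variable {E : Type*} [NormedAddCommGroup E] [InnerProductSpace ℝ E] [FiniteDimensional ℝ E]
  [MeasurableSpace E] [BorelSpace E]

omit [FiniteDimensional ℝ E] in
lemma meas_In (z : E) : MeasurableSet (In z) := by
  by_cases hz : z = 0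
  · have : In z = ∅ := by
      ext g
      simp [In, hz]
    rw [this]
    exact MeasurableSet.empty
  · have : In z = {g | tt z * ‖z‖ ≤ inner ℝ z g} := by
      ext g
      simp [In, hz]
    rw [this]
    exact (isClosed_le continuous_const (by fun_prop)).measurableSet

/-- the indicator of a candidate -/
noncomputable def ind (z : E) (g : E) : ℝ := (In z).indicator (fun _ => (1 : ℝ)) g

omit [FiniteDimensional ℝ E] [MeasurableSpace E] [BorelSpace E] in
lemma ind_nn (z g : E) : 0 ≤ ind z g := by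
  unfold ind
  exact Set.indicator_nonneg (fun _ _ => by norm_num) g

omit [FiniteDimensional ℝ E] [MeasurableSpace E] [BorelSpace E] in
lemma ind_of_mem {z g : E} (h : g ∈ In z) : ind z g = 1 := by
  unfold ind
  rw [Set.indicator_of_mem h]

omit [FiniteDimensional ℝ E] [MeasurableSpace E] [BorelSpace E] in
lemma lab_eq {q : ℕ} (X : Fin q → E) (g : E) (a : Fin q) :
    lab X g a = ind (X a) g / ∑ a', ind (X a') g := rfl

omit [FiniteDimensional ℝ E] [MeasurableSpace E] [BorelSpace E] in
lemma lab_nonneg' {q : ℕ} (X : Fin q → E) (g : E) (a : Fin q) : 0 ≤ lab X g a := by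
  rw [lab_eq]
  exact div_nonneg (ind_nn _ _) (sum_nonneg fun _ _ => ind_nn _ _)

omit [FiniteDimensional ℝ E] [MeasurableSpace E] [BorelSpace E] in
lemma lab_le_one' {q : ℕ} (X : Fin q → E) (g : E) (a : Fin q) : lab X g a ≤ 1 := by
  rw [lab_eq]
  exact div_le_one_of_le₀ (single_le_sum (f := fun a' => ind (X a') g)
    (fun a' _ => ind_nn _ _) (mem_univ a)) (sum_nonneg fun _ _ => ind_nn _ _)

omit [FiniteDimensional ℝ E] in
lemma measurable_ind (z : E) : Measurable (ind z) :=
  measurable_const.indicator (meas_In z)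

omit [FiniteDimensional ℝ E] in
lemma measurable_lab' {q : ℕ} (X : Fin q → E) (a : Fin q) : Measurable fun g => lab X g a := by
  have : (fun g => lab X g a) = fun g => ind (X a) g / ∑ a', ind (X a') g := rfl
  rw [this]
  exact (measurable_ind _).div (Finset.measurable_sum _ fun a' _ => measurable_ind _)

lemma integrable_of_bdd {f : E → ℝ} (hf : Measurable f) {C : ℝ} (hb : ∀ g, |f g| ≤ C) :
    Integrable f (stdGaussian E) :=
  Integrable.of_bound hf.aestronglyMeasurable C (Filter.Eventually.of_forall fun g => by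
    rw [Real.norm_eq_abs]; exact hb g)

lemma integrable_ind_set {A : Set E} (hA : MeasurableSet A) :
    Integrable (A.indicator fun _ => (1 : ℝ)) (stdGaussian E) :=
  (integrable_const (1 : ℝ)).indicator hA

omit [BorelSpace E] in
lemma integral_ind_set {A : Set E} (hA : MeasurableSet A) :
    ∫ g, A.indicator (fun _ => (1 : ℝ)) g ∂(stdGaussian E) = (stdGaussian E).real A := by
  rw [integral_indicator hA, setIntegral_const, smul_eq_mul, mul_one]

lemma tangent {s t : ℝ} (hs : 0 < s) (ht : 0 < t) :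
    12 / 25 - 8 / 125 * (s + t) ≤ 1 / s * (1 / t) := by
  have h1 : (4 : ℝ) / (s + t) ^ 2 ≤ 1 / s * (1 / t) := by
    rw [div_mul_div_comm, div_le_div_iff₀ (by positivity) (by positivity)]
    nlinarith [sq_nonneg (s - t)]
  refine le_trans ?_ h1
  have hm : 0 < s + t := by positivity
  rw [le_div_iff₀ (by positivity)]
  nlinarith [mul_nonneg hm.le (sq_nonneg (s + t - 5)), sq_nonneg (s + t - 5)]

/-- one fibre: a set `A` on which both labels are candidates -/
lemma fibre {q : ℕ} (X Y : Fin q → E) {a b : Fin q} {A : Set E} (hA : MeasurableSet A)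
    (hAX : A ⊆ In (X a)) (hAY : A ⊆ In (Y b))
    (h1 : ∑ a', (stdGaussian E).real (A ∩ In (X a')) ≤ 3 * (stdGaussian E).real A)
    (h2 : ∑ b', (stdGaussian E).real (A ∩ In (Y b')) ≤ 2 * (stdGaussian E).real A) :
    4 / 25 * (stdGaussian E).real A ≤ ∫ g, lab X g a * lab Y g b ∂(stdGaussian E) := by
  have hpt : ∀ g, 12 / 25 * A.indicator (fun _ => (1 : ℝ)) g
      - 8 / 125 * (∑ a', (A ∩ In (X a')).indicator (fun _ => (1 : ℝ)) g
        + ∑ b', (A ∩ In (Y b')).indicator (fun _ => (1 : ℝ)) g) ≤ lab X g a * lab Y g b := by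
    intro g
    by_cases hg : g ∈ A
    · have e1 : ∀ Z : Fin q → E, ∑ a', (A ∩ In (Z a')).indicator (fun _ => (1 : ℝ)) g
          = ∑ a', ind (Z a') g := by
        intro Z
        refine sum_congr rfl fun a' _ => ?_
        unfold ind
        by_cases hz : g ∈ In (Z a')
        · rw [Set.indicator_of_mem hz, Set.indicator_of_mem (Set.mem_inter hg hz)]
        · rw [Set.indicator_of_notMem hz, Set.indicator_of_notMem fun h => hz h.2]
      rw [e1, e1, Set.indicator_of_mem hg, lab_eq, lab_eq, ind_of_mem (hAX hg), ind_of_mem (hAY hg)]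
      have hpos : ∀ (Z : Fin q → E) (c : Fin q), g ∈ In (Z c) → 0 < ∑ a', ind (Z a') g := by
        intro Z c hc
        refine lt_of_lt_of_le zero_lt_one ?_
        rw [← ind_of_mem hc]
        exact single_le_sum (f := fun a' => ind (Z a') g) (fun a' _ => ind_nn _ _) (mem_univ c)
      have := tangent (hpos X a (hAX hg)) (hpos Y b (hAY hg))
      linarith
    · rw [Set.indicator_of_notMem hg]
      have e1 : ∀ Z : Fin q → E, ∑ a', (A ∩ In (Z a')).indicator (fun _ => (1 : ℝ)) g = 0 := by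
        intro Z
        refine sum_eq_zero fun a' _ => ?_
        rw [Set.indicator_of_notMem fun h => hg h.1]
      rw [e1, e1]
      have := mul_nonneg (lab_nonneg' X g a) (lab_nonneg' Y g b)
      linarith
  have hint : Integrable (fun g => lab X g a * lab Y g b) (stdGaussian E) := by
    refine integrable_of_bdd ((measurable_lab' X a).mul (measurable_lab' Y b)) (C := 1) fun g => ?_
    rw [abs_of_nonneg (mul_nonneg (lab_nonneg' X g a) (lab_nonneg' Y g b))]
    exact mul_le_one₀ (lab_le_one' X g a) (lab_nonneg' Y g b) (lab_le_one' Y g b)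
  have hi1 : ∀ Z : Fin q → E, Integrable (fun g =>
      ∑ a', (A ∩ In (Z a')).indicator (fun _ => (1 : ℝ)) g) (stdGaussian E) := fun Z =>
    integrable_finsetSum _ fun a' _ => integrable_ind_set (hA.inter (meas_In _))
  have hi2 : ∀ Z : Fin q → E, ∫ g, ∑ a', (A ∩ In (Z a')).indicator (fun _ => (1 : ℝ)) g
      ∂(stdGaussian E) = ∑ a', (stdGaussian E).real (A ∩ In (Z a')) := by
    intro Z
    rw [integral_finsetSum _ fun a' _ => integrable_ind_set (hA.inter (meas_In _))]
    exact sum_congr rfl fun a' _ => integral_ind_set (hA.inter (meas_In _))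
  have hmono := integral_mono (((integrable_ind_set hA).const_mul (12 / 25)).sub
    (((hi1 X).add (hi1 Y)).const_mul (8 / 125))) hint hpt
  have e : ∫ g, (12 / 25 * A.indicator (fun _ => (1 : ℝ)) g
      - 8 / 125 * (∑ a', (A ∩ In (X a')).indicator (fun _ => (1 : ℝ)) g
        + ∑ b', (A ∩ In (Y b')).indicator (fun _ => (1 : ℝ)) g)) ∂(stdGaussian E)
      = 12 / 25 * (stdGaussian E).real A - 8 / 125 * (∑ a', (stdGaussian E).real (A ∩ In (X a'))
        + ∑ b', (stdGaussian E).real (A ∩ In (Y b'))) := by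
    have e3 := integral_sub ((integrable_ind_set hA).const_mul (12 / 25))
      (((hi1 X).add (hi1 Y)).const_mul (8 / 125))
    simp only [Pi.add_apply] at e3
    rw [e3, integral_const_mul, integral_const_mul, integral_add (hi1 X) (hi1 Y), hi2, hi2,
      integral_ind_set hA]
  have hmono2 := le_trans (le_of_eq e.symm) hmono
  linarith

lemma kap_nonneg : 0 ≤ kap := by
  unfold kap
  have : √2 ≤ 3 / 2 := by
    rw [Real.sqrt_le_left (by norm_num)]
    norm_num
  linarith

lemma kap_le : kap ≤ 1 / 5 := by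
  unfold kap
  have : 7 / 5 ≤ √2 := by
    apply Real.le_sqrt_of_sq_le
    norm_num
  linarith

lemma four_kap : (4 : ℝ) ^ kap ≤ 4 / 3 := by
  have h1 : (4 : ℝ) ^ kap ≤ (4 : ℝ) ^ (1 / 5 : ℝ) :=
    Real.rpow_le_rpow_of_exponent_le (by norm_num) kap_le
  have h2 : (4 : ℝ) ^ (1 / 5 : ℝ) ≤ ((4 / 3 : ℝ) ^ (5 : ℝ)) ^ (1 / 5 : ℝ) := by
    apply Real.rpow_le_rpow (by norm_num) _ (by norm_num)
    rw [show (5 : ℝ) = ((5 : ℕ) : ℝ) by norm_num, Real.rpow_natCast]
    norm_num
  rw [← Real.rpow_mul (by norm_num), show (5 : ℝ) * (1 / 5) = 1 by norm_num,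
    Real.rpow_one] at h2
  exact h1.trans h2

lemma num {q : ℕ} (hq : 0 < q) {p : ℝ} (h : 1 / (4 * (q : ℝ)) ≤ p) (hp1 : p ≤ 1) :
    3 / 32 * p / ((q : ℝ) ^ kap * (1 + Real.log q))
      ≤ p ^ (1 + kap) / (1 + √(2 * Real.log (1 / p))) ^ 2 := by
  have hq1 : (1 : ℝ) ≤ q := by exact_mod_cast hq
  have hq0 : (0 : ℝ) < q := by linarith
  have hp0 : 0 < p := lt_of_lt_of_le (by positivity) h
  have hlogq : 0 ≤ Real.log q := Real.log_nonneg hq1
  have hqk : 0 < (q : ℝ) ^ kap := Real.rpow_pos_of_pos hq0 _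
  have hlp : 0 ≤ Real.log (1 / p) := Real.log_nonneg (by rw [le_div_iff₀ hp0]; linarith)
  -- the power
  have h1 : 3 / 4 * (p / (q : ℝ) ^ kap) ≤ p ^ (1 + kap) := by
    rw [Real.rpow_add hp0, Real.rpow_one]
    have h2 : (1 / (4 * (q : ℝ))) ^ kap ≤ p ^ kap :=
      Real.rpow_le_rpow (by positivity) h kap_nonneg
    have h3 : 3 / 4 / (q : ℝ) ^ kap ≤ (1 / (4 * (q : ℝ))) ^ kap := by
      rw [Real.div_rpow (by norm_num) (by positivity), Real.one_rpow,
        Real.mul_rpow (by norm_num) hq0.le, div_le_div_iff₀ hqk (by positivity)]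
      have := four_kap
      nlinarith
    calc 3 / 4 * (p / (q : ℝ) ^ kap) = p * (3 / 4 / (q : ℝ) ^ kap) := by ring
      _ ≤ p * p ^ kap := mul_le_mul_of_nonneg_left (h3.trans h2) hp0.le
  -- the threshold
  have h4 : Real.log (1 / p) ≤ Real.log 4 + Real.log q := by
    rw [← Real.log_mul (by norm_num) hq0.ne']
    apply Real.log_le_log (by positivity)
    rw [div_le_iff₀ (by positivity)] at h
    rw [div_le_iff₀ hp0]
    linarith
  have h5 : Real.log 4 ≤ 3 / 2 := by
    have : Real.log 4 = 2 * Real.log 2 := by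
      rw [show (4 : ℝ) = 2 ^ 2 by norm_num, Real.log_pow]
      norm_num
    rw [this]
    have := Real.log_two_lt_d9
    linarith
  have h6 : (1 + √(2 * Real.log (1 / p))) ^ 2 ≤ 8 * (1 + Real.log q) := by
    have e : √(2 * Real.log (1 / p)) ^ 2 = 2 * Real.log (1 / p) := Real.sq_sqrt (by positivity)
    nlinarith [sq_nonneg (1 - √(2 * Real.log (1 / p)))]
  have hpos : 0 < (1 + √(2 * Real.log (1 / p))) ^ 2 := by positivity
  calc 3 / 32 * p / ((q : ℝ) ^ kap * (1 + Real.log q))
      = 3 / 4 * (p / (q : ℝ) ^ kap) / (8 * (1 + Real.log q)) := by field_simp; norm_num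
    _ ≤ p ^ (1 + kap) / (8 * (1 + Real.log q)) := by
        apply div_le_div_of_nonneg_right h1 (by positivity)
    _ ≤ _ := by
        apply div_le_div_of_nonneg_left (by positivity) hpos h6

/-- one edge -/
theorem f4 (hF1 : F1 E) (hF2 : F2 E) (hF3 : F3 E) : F4 E := by
  classical
  intro q X Y π hq ho h1 hfib hY
  have hXY : ∀ c b, inner ℝ (X c) (Y b) = if π c = b then ‖X c‖ ^ 2 else (0 : ℝ) := by
    intro c b
    rw [hY, inner_sum]
    split_ifs with h
    · rw [sum_eq_single_of_mem c (mem_filter.mpr ⟨mem_univ _, h⟩), real_inner_self_eq_norm_sq]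
      intro a _ ha
      exact ho _ _ (Ne.symm ha)
    · refine sum_eq_zero fun a ha => ho _ _ ?_
      rintro rfl
      exact h (mem_filter.mp ha).2
  have hYY : ∀ b b', inner ℝ (Y b) (Y b')
      = if b = b' then ∑ a ∈ univ.filter (fun a => π a = b), ‖X a‖ ^ 2 else (0 : ℝ) := by
    intro b b'
    conv_lhs => rw [hY b]
    rw [sum_inner]
    split_ifs with h
    · refine sum_congr rfl fun a ha => ?_
      rw [hXY, if_pos ((mem_filter.mp ha).2.trans h)]
    · refine sum_eq_zero fun a ha => ?_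
      rw [hXY, if_neg]
      rw [(mem_filter.mp ha).2]
      exact h
  have hYn : ∀ b, ‖Y b‖ ^ 2 = ∑ a ∈ univ.filter (fun a => π a = b), ‖X a‖ ^ 2 := by
    intro b
    rw [← real_inner_self_eq_norm_sq, hYY, if_pos rfl]
  have hYs : ∑ b, ‖Y b‖ ^ 2 = 1 := by
    rw [sum_congr rfl fun b _ => hYn b, sum_fiberwise, h1]
  have hX1 : ∀ a, ‖X a‖ ≤ 1 := by
    intro a
    have : ‖X a‖ ^ 2 ≤ 1 := by
      rw [← h1]
      exact single_le_sum (f := fun a => ‖X a‖ ^ 2) (fun _ _ => by positivity) (mem_univ a)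
    nlinarith [norm_nonneg (X a)]
  have hY1 : ∀ a, ‖Y a‖ ≤ 1 := by
    intro a
    have : ‖Y a‖ ^ 2 ≤ 1 := by
      rw [← hYs]
      exact single_le_sum (f := fun a => ‖Y a‖ ^ 2) (fun _ _ => by positivity) (mem_univ a)
    nlinarith [norm_nonneg (Y a)]
  have hex : ∀ b, ∃ a, Y b ≠ 0 → π a = b ∧ ∀ c, π c = b → ‖X c‖ ≤ ‖X a‖ := by
    intro b
    by_cases hb : Y b = 0
    · exact ⟨⟨0, hq⟩, fun h => absurd hb h⟩
    · have hne : (univ.filter fun a => π a = b).Nonempty := by
        rw [nonempty_iff_ne_empty]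
        intro h
        apply hb
        rw [hY, h, sum_empty]
      obtain ⟨a, ha, hmax⟩ := exists_max_image _ (fun a => ‖X a‖) hne
      exact ⟨a, fun _ => ⟨(mem_filter.mp ha).2, fun c hc =>
        hmax c (mem_filter.mpr ⟨mem_univ _, hc⟩)⟩⟩
  choose al hal using hex
  set μ := stdGaussian E with hμ
  -- the data of one fibre
  have key : ∀ b, Y b ≠ 0 → X (al b) ≠ 0 ∧ ‖Y b‖ ^ 2 ≤ 2 * ‖X (al b)‖ ^ 2
      ∧ 1 / 200 * (‖X (al b)‖ ^ 2) ^ (1 + kap) / (1 + tt (X (al b))) ^ 2 * (4 / 25)
        ≤ ∫ g, lab X g (al b) * lab Y g b ∂μ := by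
    intro b hb
    obtain ⟨hpi, hmax⟩ := hal b hb
    set a := al b with ha
    have hmem : a ∈ univ.filter (fun c => π c = b) := mem_filter.mpr ⟨mem_univ _, hpi⟩
    have hsplit : Y b = X a + ∑ c ∈ (univ.filter (fun c => π c = b)).erase a, X c := by
      rw [hY, add_sum_erase _ _ hmem]
    set x' := Y b - X a with hx'
    have hx'' : x' = ∑ c ∈ (univ.filter (fun c => π c = b)).erase a, X c := by
      rw [hx', hsplit]
      abel
    have hcard : ((univ.filter (fun c => π c = b)).erase a).card ≤ 1 := by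
      rw [card_erase_of_mem hmem]
      have := hfib b
      omega
    have hle : ‖x'‖ ≤ ‖X a‖ := by
      rw [hx'']
      rcases Nat.le_one_iff_eq_zero_or_eq_one.mp hcard with h | h
      · rw [card_eq_zero.mp h, sum_empty, norm_zero]
        exact norm_nonneg _
      · obtain ⟨c, hc⟩ := card_eq_one.mp h
        rw [hc, sum_singleton]
        have : c ∈ (univ.filter (fun c => π c = b)).erase a := by
          rw [hc]
          exact mem_singleton_self c
        exact hmax c (mem_filter.mp (mem_of_mem_erase this)).2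
    have hox : inner ℝ (X a) x' = (0 : ℝ) := by
      rw [hx', inner_sub_right, hXY, if_pos hpi, real_inner_self_eq_norm_sq, sub_self]
    have hadd : X a + x' = Y b := by
      rw [hx']
      abel
    have hx0 : X a ≠ 0 := by
      intro h
      apply hb
      rw [h, norm_zero] at hle
      have : x' = 0 := norm_le_zero_iff.mp hle
      rw [← hadd, h, this, add_zero]
    have hnorm : ‖Y b‖ ^ 2 ≤ 2 * ‖X a‖ ^ 2 := by
      have e : ‖Y b‖ ^ 2 = ‖X a‖ ^ 2 + ‖x'‖ ^ 2 := by
        rw [← hadd, ← real_inner_self_eq_norm_sq, ← real_inner_self_eq_norm_sq,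
          ← real_inner_self_eq_norm_sq, inner_add_left, inner_add_right, inner_add_right,
          hox, real_inner_comm (X a) x', hox]
        ring
      rw [e]
      nlinarith [norm_nonneg x', norm_nonneg (X a)]
    refine ⟨hx0, hnorm, ?_⟩
    have hb3 := hF3 (X a) x' hx0 hox hle (by rw [hadd]; exact hY1 b)
    rw [hadd] at hb3
    set A : Set E := In (X a) ∩ In (Y b) with hA
    have hAm : MeasurableSet A := (meas_In _).inter (meas_In _)
    have hfree : ∀ z : E, inner ℝ (X a) z = (0 : ℝ) → inner ℝ (Y b) z = (0 : ℝ) → ‖z‖ ≤ 1 →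
        μ.real (A ∩ In z) ≤ μ.real A * ‖z‖ ^ 2 := by
      intro z hz1 hz2 hz3
      have h := hF2 (X a) x' z hx0 hox hz1 (by rw [hx', inner_sub_left, hz1, hz2, sub_zero])
      rw [hadd] at h
      rw [hA, h]
      exact mul_le_mul_of_nonneg_left (hF1 z hz3) measureReal_nonneg
    have hsub : ∀ z : E, μ.real (A ∩ In z) ≤ μ.real A := fun z =>
      measureReal_mono Set.inter_subset_left
    have hA0 : 0 ≤ μ.real A := measureReal_nonneg
    have hs1 : ∑ a', μ.real (A ∩ In (X a')) ≤ 3 * μ.real A := by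
      have hb1 : ∀ a', μ.real (A ∩ In (X a'))
          ≤ (if π a' = b then μ.real A else 0) + μ.real A * ‖X a'‖ ^ 2 := by
        intro a'
        split_ifs with h
        · have := hsub (X a')
          have h2 : 0 ≤ μ.real A * ‖X a'‖ ^ 2 := by positivity
          linarith
        · rw [zero_add]
          refine hfree _ (ho _ _ ?_) ?_ (hX1 a')
          · rintro rfl
            exact h hpi
          · rw [real_inner_comm, hXY, if_neg h]
      refine (sum_le_sum fun a' _ => hb1 a').trans ?_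
      rw [sum_add_distrib, ← mul_sum, h1, ← sum_filter, sum_const, nsmul_eq_mul]
      have : ((univ.filter fun a' => π a' = b).card : ℝ) ≤ 2 := by exact_mod_cast hfib b
      nlinarith
    have hs2 : ∑ b', μ.real (A ∩ In (Y b')) ≤ 2 * μ.real A := by
      have hb1 : ∀ b', μ.real (A ∩ In (Y b'))
          ≤ (if b' = b then μ.real A else 0) + μ.real A * ‖Y b'‖ ^ 2 := by
        intro b'
        split_ifs with h
        · have := hsub (Y b')
          have h2 : 0 ≤ μ.real A * ‖Y b'‖ ^ 2 := by positivity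
          linarith
        · rw [zero_add]
          refine hfree _ ?_ ?_ (hY1 b')
          · rw [hXY, if_neg]
            rw [hpi]
            exact Ne.symm h
          · rw [hYY, if_neg (Ne.symm h)]
      refine (sum_le_sum fun b' _ => hb1 b').trans ?_
      rw [sum_add_distrib, ← mul_sum, hYs, sum_ite_eq' univ b, if_pos (mem_univ b)]
      linarith
    have hfb := fibre X Y hAm Set.inter_subset_left Set.inter_subset_right hs1 hs2
    linarith
  -- all fibres
  have hint : ∀ a b, Integrable (fun g => lab X g a * lab Y g b) μ := by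
    intro a b
    refine integrable_of_bdd ((measurable_lab' X a).mul (measurable_lab' Y b)) (C := 1) fun g => ?_
    rw [abs_of_nonneg (mul_nonneg (lab_nonneg' X g a) (lab_nonneg' Y g b))]
    exact mul_le_one₀ (lab_le_one' X g a) (lab_nonneg' Y g b) (lab_le_one' Y g b)
  rw [integral_finsetSum _ fun a _ => hint a (π a)]
  set J : Fin q → ℝ := fun a => ∫ g, lab X g a * lab Y g (π a) ∂μ with hJ
  have hJ0 : ∀ a, 0 ≤ J a := fun a =>
    integral_nonneg fun g => mul_nonneg (lab_nonneg' X g a) (lab_nonneg' Y g _)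
  set B := univ.filter fun b => Y b ≠ 0 ∧ 1 / (4 * (q : ℝ)) ≤ ‖X (al b)‖ ^ 2 with hB
  have hq1 : (1 : ℝ) ≤ q := by exact_mod_cast hq
  have hq0 : (0 : ℝ) < q := by linarith
  have hlogq : 0 ≤ Real.log q := Real.log_nonneg hq1
  have hqk : 0 < (q : ℝ) ^ kap := Real.rpow_pos_of_pos hq0 _
  have hsum1 : ∑ b ∈ B, J (al b) ≤ ∑ a, J a := by
    rw [← sum_image (f := J) (s := B) (g := al)]
    · exact sum_le_sum_of_subset_of_nonneg (subset_univ _) fun a _ _ => hJ0 a
    · intro b hb b' hb' h
      have h3 := (hal b (mem_filter.mp hb).2.1).1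
      have h4 := (hal b' (mem_filter.mp hb').2.1).1
      rw [← h3, ← h4, h]
  have hterm : ∀ b ∈ B, 1 / 200 * (4 / 25) * (3 / 32) * ‖X (al b)‖ ^ 2
      / ((q : ℝ) ^ kap * (1 + Real.log q)) ≤ J (al b) := by
    intro b hb
    obtain ⟨hb1, hb2⟩ := (mem_filter.mp hb).2
    have hk := (key b hb1).2.2
    have hn := num hq hb2 (by nlinarith [hX1 (al b), norm_nonneg (X (al b))])
    have e : J (al b) = ∫ g, lab X g (al b) * lab Y g b ∂μ := by
      simp only [hJ]
      rw [(hal b hb1).1]
    rw [e]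
    refine le_trans ?_ hk
    have e2 : tt (X (al b)) = √(2 * Real.log (1 / ‖X (al b)‖ ^ 2)) := rfl
    rw [e2]
    calc _ = 1 / 200 * (4 / 25) * (3 / 32 * ‖X (al b)‖ ^ 2
          / ((q : ℝ) ^ kap * (1 + Real.log q))) := by ring
      _ ≤ 1 / 200 * (4 / 25) * ((‖X (al b)‖ ^ 2) ^ (1 + kap)
          / (1 + √(2 * Real.log (1 / ‖X (al b)‖ ^ 2))) ^ 2) :=
          mul_le_mul_of_nonneg_left hn (by norm_num)
      _ = _ := by ring
  -- the mass
  have hmass : 1 / 4 ≤ ∑ b ∈ B, ‖X (al b)‖ ^ 2 := by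
    have h3 : ∀ b, ‖Y b‖ ^ 2 ≤ 2 * ((if b ∈ B then ‖X (al b)‖ ^ 2 else 0) + 1 / (4 * (q : ℝ))) := by
      intro b
      by_cases hb : Y b = 0
      · rw [hb, norm_zero]
        have : (0 : ℝ) ≤ if b ∈ B then ‖X (al b)‖ ^ 2 else 0 := by split_ifs <;> positivity
        have h4 : (0 : ℝ) ≤ 1 / (4 * (q : ℝ)) := by positivity
        nlinarith
      · have hk := (key b hb).2.1
        split_ifs with h
        · have h4 : (0 : ℝ) ≤ 1 / (4 * (q : ℝ)) := by positivity
          linarith
        · have h4 : ‖X (al b)‖ ^ 2 < 1 / (4 * (q : ℝ)) := by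
            by_contra h5
            exact h (mem_filter.mpr ⟨mem_univ _, hb, not_lt.mp h5⟩)
          linarith
    have h4 := sum_le_sum fun (b : Fin q) (_ : b ∈ univ) => h3 b
    rw [hYs, ← mul_sum, sum_add_distrib, sum_ite_mem, univ_inter, sum_const, card_univ,
      Fintype.card_fin, nsmul_eq_mul] at h4
    have e : (q : ℝ) * (1 / (4 * (q : ℝ))) = 1 / 4 := by field_simp
    rw [e] at h4
    linarith
  refine le_trans ?_ hsum1
  refine le_trans ?_ (sum_le_sum hterm)
  rw [← sum_div, ← mul_sum]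
  apply div_le_div_of_nonneg_right _ (by positivity)
  unfold cF
  linarith

/-- one edge, unconditional -/
theorem edge (E : Type*) [NormedAddCommGroup E] [InnerProductSpace ℝ E] [FiniteDimensional ℝ E]
    [MeasurableSpace E] [BorelSpace E] : F4 E := f4 (f1 E) (f2 E) (f3 E)

end Pool.Agent.MP_ec946a.RND
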