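import Pool.Agent.Lib.MP_ec946a_rnd.Defs
import Pool.Agent.Lib.MP_ec946a_sda.Round

/-!
# Rounding satisfiable 2-to-1 games: from one edge to the game
-/

set_option autoImplicit false

namespace Pool.Agent.MP_ec946a.RND

open MeasureTheory ProbabilityTheory Finset

section lab

variable {E : Type*} [NormedAddCommGroup E] [InnerProductSpace ℝ E]

lemma indic_nonneg (z g : E) : 0 ≤ (In z).indicator (fun _ => (1 : ℝ)) g :=
  Set.indicator_nonneg (fun _ _ => zero_le_one) _

lemma indic_le_one (z g : E) : (In z).indicator (fun _ => (1 : ℝ)) g ≤ 1 := by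
  by_cases h : g ∈ In z
  · rw [Set.indicator_of_mem h]
  · rw [Set.indicator_of_notMem h]
    exact zero_le_one

lemma lab_nonneg {q : ℕ} (X : Fin q → E) (g : E) (a : Fin q) : 0 ≤ lab X g a :=
  div_nonneg (indic_nonneg _ _) (sum_nonneg fun _ _ => indic_nonneg _ _)

lemma sum_lab_le_one {q : ℕ} (X : Fin q → E) (g : E) : ∑ a, lab X g a ≤ 1 := by
  unfold lab
  rw [← sum_div]
  exact div_self_le_one _

lemma lab_le_one {q : ℕ} (X : Fin q → E) (g : E) (a : Fin q) : lab X g a ≤ 1 :=
  (single_le_sum (f := fun a => lab X g a) (fun a _ => lab_nonneg X g a) (mem_univ a)).trans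
    (sum_lab_le_one X g)

variable [FiniteDimensional ℝ E] [MeasurableSpace E] [BorelSpace E]

lemma measurableSet_In (z : E) : MeasurableSet (In z) := by
  have h : Measurable fun g : E => (inner ℝ z g : ℝ) := by fun_prop
  by_cases hz : z = 0
  · have : In z = ∅ := by
      ext g
      simp [In, hz]
    rw [this]
    exact MeasurableSet.empty
  · have : In z = {g | tt z * ‖z‖ ≤ inner ℝ z g} := by
      ext g
      simp [In, hz]
    rw [this]
    exact measurableSet_le measurable_const h

lemma measurable_lab {q : ℕ} (X : Fin q → E) (a : Fin q) : Measurable fun g => lab X g a := by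
  unfold lab
  refine Measurable.div (measurable_const.indicator (measurableSet_In _)) ?_
  exact Finset.measurable_sum _ fun a' _ => measurable_const.indicator (measurableSet_In _)

lemma integrable_lab_mul {q : ℕ} (X Y : Fin q → E) (a b : Fin q) :
    Integrable (fun g => lab X g a * lab Y g b) (stdGaussian E) := by
  refine Integrable.of_bound ((measurable_lab X a).mul (measurable_lab Y b)).aestronglyMeasurable
    1 (Filter.Eventually.of_forall fun g => ?_)
  rw [Real.norm_of_nonneg (mul_nonneg (lab_nonneg _ _ _) (lab_nonneg _ _ _))]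
  exact mul_le_one₀ (lab_le_one _ _ _) (lab_nonneg _ _ _) (lab_le_one _ _ _)

end lab

variable {q n : ℕ} {G : Game q}

/-- at a solution with objective one, the vectors of the two ends of an edge are orthogonal
unless the labels match -/
lemma inner_eq_zero (s : G.SDPSolution n) (h : s.obj = 1) (e : G.E) (a b : Fin q)
    (hab : G.proj e a ≠ b) : (inner ℝ (s.x (G.src e) a) (s.y (G.tgt e) b) : ℝ) = 0 := by
  have hE : (0 : ℝ) < (Nat.card G.E : ℝ) := by exact_mod_cast Nat.card_pos
  have h1 : inner ℝ s.x₀ s.x₀ = (1 : ℝ) := by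
    rw [real_inner_self_eq_norm_sq, s.norm_x₀, one_pow]
  have htot : ∀ e : G.E, ∑ a, ∑ b, inner ℝ (s.x (G.src e) a) (s.y (G.tgt e) b) = (1 : ℝ) := by
    intro e
    rw [← h1]
    conv_rhs => rw [← s.sum_x (G.src e)]
    rw [sum_inner, s.sum_x]
    refine sum_congr rfl fun a _ => ?_
    rw [← inner_sum, s.sum_y]
  have hle : ∀ e : G.E, ∑ a, inner ℝ (s.x (G.src e) a) (s.y (G.tgt e) (G.proj e a)) ≤ (1 : ℝ) := by
    intro e
    rw [← htot e]
    refine sum_le_sum fun a _ => ?_
    exact single_le_sum (f := fun b => (inner ℝ (s.x (G.src e) a) (s.y (G.tgt e) b) : ℝ))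
      (fun b _ => s.nonneg e a b) (mem_univ (G.proj e a))
  have hsum : ∑ e, ∑ a, inner ℝ (s.x (G.src e) a) (s.y (G.tgt e) (G.proj e a))
      = (Nat.card G.E : ℝ) := by
    have := h
    unfold Game.SDPSolution.obj at this
    rw [div_eq_one_iff_eq hE.ne'] at this
    exact this
  have heq : ∀ e : G.E,
      ∑ a, inner ℝ (s.x (G.src e) a) (s.y (G.tgt e) (G.proj e a)) = (1 : ℝ) := by
    by_contra hcon
    push Not at hcon
    obtain ⟨e₀, he₀⟩ := hcon
    have hlt : ∑ e, ∑ a, inner ℝ (s.x (G.src e) a) (s.y (G.tgt e) (G.proj e a))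
        < ∑ _e : G.E, (1 : ℝ) :=
      sum_lt_sum (fun e _ => hle e) ⟨e₀, mem_univ _, lt_of_le_of_ne (hle e₀) he₀⟩
    rw [hsum, sum_const, card_univ, nsmul_eq_mul, mul_one, Nat.card_eq_fintype_card] at hlt
    exact lt_irrefl _ hlt
  -- the difference of the two sums is a sum of nonnegative terms
  have hz : ∑ a, (∑ b, inner ℝ (s.x (G.src e) a) (s.y (G.tgt e) b)
      - inner ℝ (s.x (G.src e) a) (s.y (G.tgt e) (G.proj e a))) = (0 : ℝ) := by
    rw [sum_sub_distrib, htot, heq, sub_self]
  have hterm : ∀ a, (0 : ℝ) ≤ ∑ b, inner ℝ (s.x (G.src e) a) (s.y (G.tgt e) b)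
      - inner ℝ (s.x (G.src e) a) (s.y (G.tgt e) (G.proj e a)) := by
    intro a
    rw [sub_nonneg]
    exact single_le_sum (f := fun b => (inner ℝ (s.x (G.src e) a) (s.y (G.tgt e) b) : ℝ))
      (fun b _ => s.nonneg e a b) (mem_univ (G.proj e a))
  have ha := (sum_eq_zero_iff_of_nonneg fun a _ => hterm a).mp hz a (mem_univ a)
  rw [← add_sum_erase univ (fun b => (inner ℝ (s.x (G.src e) a) (s.y (G.tgt e) b) : ℝ))
    (mem_univ (G.proj e a)), add_sub_cancel_left] at ha
  exact (sum_eq_zero_iff_of_nonneg fun b _ => s.nonneg e a b).mp ha b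
    (mem_erase.mpr ⟨Ne.symm hab, mem_univ _⟩)

/-- at a solution with objective one, the vectors of `V` are the sums over the fibres -/
lemma fiber_sum (s : G.SDPSolution n) (h : s.obj = 1) (e : G.E) (b : Fin q) :
    s.y (G.tgt e) b = ∑ a ∈ univ.filter (fun a => G.proj e a = b), s.x (G.src e) a := by
  classical
  set F := univ.filter (fun a => G.proj e a = b) with hF
  set y := s.y (G.tgt e) b with hy
  set S : ℝ := ∑ a ∈ F, inner ℝ (s.x (G.src e) a) y with hS
  -- the norm of y
  have hyy : (inner ℝ y y : ℝ) = S := by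
    have e1 : (inner ℝ s.x₀ y : ℝ) = inner ℝ y y := by
      rw [← s.sum_y (G.tgt e), sum_inner]
      refine (sum_eq_single_of_mem b (mem_univ b) fun b' _ hb' => ?_)
      exact s.orth_y _ _ _ hb'
    rw [← e1, ← s.sum_x (G.src e), sum_inner, hS]
    symm
    refine sum_subset (subset_univ _) fun a _ ha => ?_
    refine inner_eq_zero s h e a b fun hab => ha ?_
    exact mem_filter.mpr ⟨mem_univ _, hab⟩
  -- the norms of the x
  have hxx : ∀ a ∈ F, (inner ℝ (s.x (G.src e) a) (s.x (G.src e) a) : ℝ)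
      = inner ℝ (s.x (G.src e) a) y := by
    intro a ha
    have hab : G.proj e a = b := (mem_filter.mp ha).2
    have e1 : (inner ℝ (s.x (G.src e) a) s.x₀ : ℝ)
        = inner ℝ (s.x (G.src e) a) (s.x (G.src e) a) := by
      rw [← s.sum_x (G.src e), inner_sum]
      refine (sum_eq_single_of_mem a (mem_univ a) fun a' _ ha' => ?_)
      exact s.orth_x _ _ _ (Ne.symm ha')
    rw [← e1, ← s.sum_y (G.tgt e), inner_sum]
    refine sum_eq_single_of_mem b (mem_univ b) fun b' _ hb' => ?_
    exact inner_eq_zero s h e a b' (by rw [hab]; exact Ne.symm hb')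
  have hxs : (inner ℝ (∑ a ∈ F, s.x (G.src e) a) (∑ a ∈ F, s.x (G.src e) a) : ℝ) = S := by
    rw [sum_inner]
    refine sum_congr rfl fun a ha => ?_
    rw [inner_sum, ← hxx a ha]
    refine sum_eq_single_of_mem a ha fun a' _ ha' => ?_
    exact s.orth_x _ _ _ (Ne.symm ha')
  have hxy : (inner ℝ (∑ a ∈ F, s.x (G.src e) a) y : ℝ) = S := by
    rw [sum_inner]
  have hnorm : ‖y - ∑ a ∈ F, s.x (G.src e) a‖ ^ 2 = 0 := by
    rw [← real_inner_self_eq_norm_sq, inner_sub_left, inner_sub_right, inner_sub_right, hyy, hxs,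
      hxy, real_inner_comm, hxy]
    ring
  have := pow_eq_zero_iff (two_ne_zero) |>.mp hnorm
  exact sub_eq_zero.mp (norm_eq_zero.mp this)

/-- (F5) the rounding bound for the game, from the bound for one edge -/
theorem rounding (s : G.SDPSolution n) (h : s.obj = 1)
    (hF : F4 (EuclideanSpace ℝ (Fin n))) :
    cF / ((q : ℝ) ^ kap * (1 + Real.log q)) ≤ G.value := by
  classical
  have hE : (0 : ℝ) < (Nat.card G.E : ℝ) := by exact_mod_cast Nat.card_pos
  obtain ⟨e₀⟩ := G.neE
  have hx0 : s.x₀ ≠ 0 := by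
    intro h0
    have := s.norm_x₀
    rw [h0, norm_zero] at this
    exact zero_ne_one this
  have hq : 0 < q := by
    by_contra hq
    have : q = 0 := by omega
    subst this
    apply hx0
    rw [← s.sum_x (G.src e₀)]
    simp
  set c : ℝ := cF / ((q : ℝ) ^ kap * (1 + Real.log q)) with hc
  have hedge : ∀ e : G.E, c ≤ ∫ g, ∑ a, lab (s.x (G.src e)) g a *
      lab (s.y (G.tgt e)) g (G.proj e a) ∂(stdGaussian (EuclideanSpace ℝ (Fin n))) := by
    intro e
    refine hF q (s.x (G.src e)) (s.y (G.tgt e)) (G.proj e) hq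
      (fun a a' haa => s.orth_x _ a a' haa) ?_ ?_ (fun b => fiber_sum s h e b)
    · have h1 : inner ℝ s.x₀ s.x₀ = (1 : ℝ) := by
        rw [real_inner_self_eq_norm_sq, s.norm_x₀, one_pow]
      rw [← h1, ← s.sum_x (G.src e), sum_inner]
      refine sum_congr rfl fun a _ => ?_
      rw [inner_sum, sum_eq_single_of_mem a (mem_univ a) fun a' _ ha' =>
        s.orth_x _ _ _ (Ne.symm ha'), real_inner_self_eq_norm_sq]
    · intro b
      have := G.two_to_one e b
      rwa [Nat.card_eq_fintype_card, Fintype.card_subtype] at this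
  have hint : ∀ e : G.E, Integrable (fun g => ∑ a, lab (s.x (G.src e)) g a *
      lab (s.y (G.tgt e)) g (G.proj e a)) (stdGaussian (EuclideanSpace ℝ (Fin n))) :=
    fun e => integrable_finsetSum _ fun a _ => integrable_lab_mul _ _ _ _
  have hsum : (Nat.card G.E : ℝ) * c ≤ G.value * (Nat.card G.E : ℝ) := by
    calc (Nat.card G.E : ℝ) * c = ∑ _e : G.E, c := by
          rw [sum_const, card_univ, nsmul_eq_mul, Nat.card_eq_fintype_card]
      _ ≤ ∑ e : G.E, ∫ g, ∑ a, lab (s.x (G.src e)) g a *
            lab (s.y (G.tgt e)) g (G.proj e a) ∂(stdGaussian (EuclideanSpace ℝ (Fin n))) :=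
          sum_le_sum fun e _ => hedge e
      _ = ∫ g, ∑ e : G.E, ∑ a, lab (s.x (G.src e)) g a *
            lab (s.y (G.tgt e)) g (G.proj e a) ∂(stdGaussian (EuclideanSpace ℝ (Fin n))) :=
          (integral_finsetSum _ fun e _ => hint e).symm
      _ ≤ ∫ _g, G.value * (Nat.card G.E : ℝ) ∂(stdGaussian (EuclideanSpace ℝ (Fin n))) := by
          refine integral_mono (integrable_finsetSum _ fun e _ => hint e)
            (integrable_const _) fun g => ?_
          exact SDA.frac_le_value G (fun u a => lab (s.x u) g a) (fun v b => lab (s.y v) g b)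
            (fun u a => lab_nonneg _ _ _) (fun u => sum_lab_le_one _ _)
            (fun v b => lab_nonneg _ _ _) (fun v => sum_lab_le_one _ _) hq
      _ = G.value * (Nat.card G.E : ℝ) := by
          rw [integral_const, probReal_univ, one_smul]
  have h2 : c * (Nat.card G.E : ℝ) ≤ G.value * (Nat.card G.E : ℝ) := by
    rw [mul_comm c]
    exact hsum
  exact le_of_mul_le_mul_right h2 hE

end Pool.Agent.MP_ec946a.RND
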