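import Mathlib
import Pool.Agent.Lib.MP_ec946a_rnd.Edge
import Pool.Agent.Lib.MP_ec946a_rnd.GameF

/-!
# Rounding satisfiable 2-to-1 games
-/

set_option autoImplicit false

namespace Pool.Agent.MP_ec946a.RND

/-- **The rounding side.**  A 2-to-1 game with `q` labels whose basic semidefinite relaxation has a
solution of objective one has value at least `q ^ (-(3 - 2 √2)) / (10^5 (1 + log q))`. -/
theorem value_ge {q n : ℕ} (G : Game q) (s : G.SDPSolution n) (h : s.obj = 1) :
    (q : ℝ) ^ (-(3 - 2 * √2)) / (100000 * (1 + Real.log q)) ≤ G.value := by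
  refine le_trans (le_of_eq ?_) (rounding s h (edge _))
  unfold cF kap
  rw [Real.rpow_neg (Nat.cast_nonneg q)]
  rw [div_div, inv_eq_one_div, div_div]
  ring_nf

end Pool.Agent.MP_ec946a.RND
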