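import Pool.Agent.Lib.MP_ec946a_rnd.Edge
import Pool.Agent.Lib.MP_ec946a_rnd.GameF

/-!
# Rounding satisfiable 2-to-1 games: the bound
-/

set_option autoImplicit false

namespace Pool.Agent.MP_ec946a.RND

/-- If the basic semidefinite relaxation of a 2-to-1 game with `q` labels has a solution with
objective one, the value of the game is at least
`10 ^ (-5) * q ^ (-(3 - 2 * √2)) / (1 + log q)`. -/
theorem value_ge {q n : ℕ} {G : Game q} (s : G.SDPSolution n) (h : s.obj = 1) :
    (1 / 100000) * (q : ℝ) ^ (-(3 - 2 * √2)) / (1 + Real.log q) ≤ G.value := by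
  have h1 := rounding s h (edge (EuclideanSpace ℝ (Fin n)))
  refine le_trans (le_of_eq ?_) h1
  unfold cF kap
  rw [Real.rpow_neg (Nat.cast_nonneg q), ← div_eq_mul_inv, div_div]

end Pool.Agent.MP_ec946a.RND
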