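import Mathlib
import Pool.Agent.Lib.MP_ec946a_rnd.Defs

/-! The numerical end of row F4: the sum over the labels (helper33). -/

set_option autoImplicit false
open Finset

namespace Pool.Agent.MP_ec946a.RND

lemma kap_bounds : 0 ≤ kap ∧ kap ≤ 1 / 2 := by
  unfold kap
  have h2 : √2 ^ 2 = 2 := Real.sq_sqrt (by norm_num)
  have h0 : 0 ≤ √2 := Real.sqrt_nonneg 2
  constructor
  · nlinarith
  · by_contra h
    push Not at h
    nlinarith

theorem num (q : ℕ) (hq : 0 < q) (p : Fin q → ℝ) (h0 : ∀ b, 0 ≤ p b) (_h1 : ∀ b, p b ≤ 1)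
    (hs : 1 / 2 ≤ ∑ b, p b) :
    cF / ((q : ℝ) ^ kap * (1 + Real.log q)) ≤
      4 / 25 * ∑ b, 1 / 200 * (p b) ^ (1 + kap) / (1 + √(2 * Real.log (1 / p b))) ^ 2 := by
  obtain ⟨hk0, hk1⟩ := kap_bounds
  have hq1 : (1 : ℝ) ≤ q := by exact_mod_cast hq
  have hq0 : (0 : ℝ) < q := by linarith
  have h4q : (0 : ℝ) < 4 * q := by linarith
  have hlq : 0 ≤ Real.log q := Real.log_nonneg hq1
  set B := (univ : Finset (Fin q)).filter (fun b => 1 / (4 * (q : ℝ)) ≤ p b) with hB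
  have hsum : 1 / 4 ≤ ∑ b ∈ B, p b := by
    have e1 : ∑ b, p b = ∑ b ∈ B, p b + ∑ b ∈ univ.filter (fun b => ¬ 1 / (4 * (q : ℝ)) ≤ p b), p b :=
      (sum_filter_add_sum_filter_not _ _ _).symm
    have e2 : ∑ b ∈ univ.filter (fun b => ¬ 1 / (4 * (q : ℝ)) ≤ p b), p b ≤ 1 / 4 := by
      calc ∑ b ∈ univ.filter (fun b => ¬ 1 / (4 * (q : ℝ)) ≤ p b), p b
          ≤ ∑ _b ∈ univ.filter (fun b => ¬ 1 / (4 * (q : ℝ)) ≤ p b), 1 / (4 * (q : ℝ)) := by
            refine sum_le_sum fun b hb => ?_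
            exact (not_le.1 (mem_filter.1 hb).2).le
        _ = (univ.filter (fun b => ¬ 1 / (4 * (q : ℝ)) ≤ p b)).card * (1 / (4 * (q : ℝ))) := by
            rw [sum_const, nsmul_eq_mul]
        _ ≤ q * (1 / (4 * (q : ℝ))) := by
            refine mul_le_mul_of_nonneg_right ?_ (by positivity)
            have := card_le_univ (univ.filter (fun b => ¬ 1 / (4 * (q : ℝ)) ≤ p b))
            rw [Fintype.card_fin] at this
            exact_mod_cast this
        _ = 1 / 4 := by field_simp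
    linarith
  set D : ℝ := (1 + √(2 * Real.log (4 * q))) ^ 2 with hD
  have hl4 : 0 ≤ Real.log (4 * q) := Real.log_nonneg (by linarith)
  have hDle : D ≤ 76 / 10 * (1 + Real.log q) := by
    have e1 : √(2 * Real.log (4 * q)) ^ 2 = 2 * Real.log (4 * q) := Real.sq_sqrt (by positivity)
    have e2 : Real.log (4 * q) = 2 * Real.log 2 + Real.log q := by
      rw [Real.log_mul (by norm_num) hq0.ne', show (4 : ℝ) = 2 ^ 2 by norm_num, Real.log_pow]
      norm_num
    have e3 : Real.log 2 < 0.6931471808 := Real.log_two_lt_d9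
    have e4 : D ≤ 2 + 2 * (2 * Real.log (4 * q)) := by
      have e5 : D ≤ 2 + 2 * √(2 * Real.log (4 * q)) ^ 2 := by
        rw [hD]
        nlinarith [sq_nonneg (1 - √(2 * Real.log (4 * q)))]
      rw [e1] at e5
      exact e5
    rw [e2] at e4
    nlinarith
  have hDpos : 0 < D := by rw [hD]; positivity
  have hterm : ∀ b ∈ B, 1 / 200 * (p b * (1 / (4 * (q : ℝ))) ^ kap) / D ≤
      1 / 200 * (p b) ^ (1 + kap) / (1 + √(2 * Real.log (1 / p b))) ^ 2 := by
    intro b hb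
    have hb1 : 1 / (4 * (q : ℝ)) ≤ p b := (mem_filter.1 hb).2
    have hb0 : 0 < p b := lt_of_lt_of_le (by positivity) hb1
    have e1 : (p b) ^ (1 + kap) = p b * (p b) ^ kap := by
      rw [Real.rpow_add hb0, Real.rpow_one]
    have e2 : (1 / (4 * (q : ℝ))) ^ kap ≤ (p b) ^ kap :=
      Real.rpow_le_rpow (by positivity) hb1 hk0
    have e3 : 1 / p b ≤ 4 * q := by
      rw [div_le_iff₀ hb0]
      rw [div_le_iff₀ h4q] at hb1
      linarith
    have e4 : (1 + √(2 * Real.log (1 / p b))) ^ 2 ≤ D := by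
      rw [hD]
      have e5 : 0 < 1 / p b := by positivity
      gcongr
    rw [e1]
    refine div_le_div₀ (by positivity) ?_ (by positivity) e4
    gcongr
  have hall : ∑ b ∈ B, 1 / 200 * (p b * (1 / (4 * (q : ℝ))) ^ kap) / D ≤
      ∑ b, 1 / 200 * (p b) ^ (1 + kap) / (1 + √(2 * Real.log (1 / p b))) ^ 2 := by
    refine (sum_le_sum hterm).trans ?_
    refine sum_le_sum_of_subset_of_nonneg (subset_univ _) fun b _ _ => ?_
    have := Real.rpow_nonneg (h0 b) (1 + kap)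
    positivity
  have hval : ∑ b ∈ B, 1 / 200 * (p b * (1 / (4 * (q : ℝ))) ^ kap) / D =
      1 / 200 * ((∑ b ∈ B, p b) * (1 / (4 * (q : ℝ))) ^ kap) / D := by
    rw [sum_mul, mul_sum, sum_div]
  rw [hval] at hall
  have hk : 1 / (2 * (q : ℝ) ^ kap) ≤ (1 / (4 * (q : ℝ))) ^ kap := by
    rw [Real.div_rpow zero_le_one h4q.le, Real.one_rpow, Real.mul_rpow (by norm_num) hq0.le]
    have e1 : (4 : ℝ) ^ kap ≤ 2 := by
      calc (4 : ℝ) ^ kap ≤ 4 ^ (1 / 2 : ℝ) :=
            Real.rpow_le_rpow_of_exponent_le (by norm_num) hk1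
        _ = 2 := by
            rw [show (4 : ℝ) = 2 ^ (2 : ℝ) by norm_num, ← Real.rpow_mul (by norm_num)]
            norm_num
    have e2 : 0 < (q : ℝ) ^ kap := Real.rpow_pos_of_pos hq0 _
    have e3 : 0 < (4 : ℝ) ^ kap := Real.rpow_pos_of_pos (by norm_num) _
    refine div_le_div_of_nonneg_left (by norm_num) (by positivity) ?_
    exact mul_le_mul_of_nonneg_right e1 e2.le
  have hqk : 0 < (q : ℝ) ^ kap := Real.rpow_pos_of_pos hq0 _
  have hfin : cF / ((q : ℝ) ^ kap * (1 + Real.log q)) ≤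
      4 / 25 * (1 / 200 * ((∑ b ∈ B, p b) * (1 / (4 * (q : ℝ))) ^ kap) / D) := by
    have e1 : 1 / 4 * (1 / (2 * (q : ℝ) ^ kap)) ≤ (∑ b ∈ B, p b) * (1 / (4 * (q : ℝ))) ^ kap :=
      mul_le_mul hsum hk (by positivity) (by linarith)
    have e2 : 1 / 200 * (1 / 4 * (1 / (2 * (q : ℝ) ^ kap))) / (76 / 10 * (1 + Real.log q)) ≤
        1 / 200 * ((∑ b ∈ B, p b) * (1 / (4 * (q : ℝ))) ^ kap) / D := by
      refine div_le_div₀ ?_ (by gcongr) hDpos hDle
      have : 0 ≤ (∑ b ∈ B, p b) * (1 / (4 * (q : ℝ))) ^ kap := le_trans (by positivity) e1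
      positivity
    have e3 : cF / ((q : ℝ) ^ kap * (1 + Real.log q)) ≤
        4 / 25 * (1 / 200 * (1 / 4 * (1 / (2 * (q : ℝ) ^ kap))) / (76 / 10 * (1 + Real.log q))) := by
      unfold cF
      have e5 : 4 / 25 * (1 / 200 * (1 / 4 * (1 / (2 * (q : ℝ) ^ kap))) /
          (76 / 10 * (1 + Real.log q))) = (1 / 76000) / ((q : ℝ) ^ kap * (1 + Real.log q)) := by
        field_simp
        norm_num
      rw [e5]
      refine div_le_div_of_nonneg_right (by norm_num) (by positivity)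
    exact e3.trans (mul_le_mul_of_nonneg_left e2 (by norm_num))
  exact hfin.trans (mul_le_mul_of_nonneg_left hall (by norm_num))

end Pool.Agent.MP_ec946a.RND
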